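import Pool.Agent.Lib.MP_65a8de_lc.Algebra

/-!
# MP_65a8de_lc, Q1: the negated form holds, for every oracle

For every finite field `F`, every coding bijection `φ` with `φ 0 = 0` and every oracle `D`
(c.e. or not) there is no `NP^D`-simple subspace of `tal(V_∞)`. In particular no subspace is both
`NP^D`-supermaximal and `NP^D`-simple.

Idea of the proof. Let `M` be an `NP^D` subspace with `dim (V_∞/M) = ∞`. Call `g` a gap if no
vector of `M` has top index `g`; there are infinitely many gaps. Define gaps `g_j` and levels `h_j`
with `g_0 < h_0 < g_1 < h_1 < …`, where `g_j` is the first gap after `h_{j-1}`, found by brute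
force, and `h_j` exceeds the time this search takes. Since the word `1^{q^{h_j}}` is longer than
that time, the sequences can be recomputed in polynomial time while reading a code. Let `Z` be the
span of the `e_{h_j}` and `W = {∑ c_j (e_{g_j} + e_{h_j}) : ∑ c_j e_{h_j} ∈ M}`. Both are `NP^D`
subspaces, and `W ∩ M = 0` as the `g_j` are gaps. If `Z ∩ M` is infinite then so is `W`;
otherwise some tail `span (e_{h_j} : j ≥ B)` of `Z` is an infinite `NP^D` subspace that meets `M`
only in `0`.
-/

namespace Pool.Agent.Results.MP_65a8de_lc.NoSimple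

open Pool.Agent.Lib.MP_65a8de_lc

/-- For every finite field, every admissible coding and every oracle `D`, no subspace of
`tal(V_∞)` is `NP^D`-simple. -/
theorem result (F : Type) [Field F] [Fintype F] (φ : F ≃ Fin (Fintype.card F))
    (hφ : (φ 0 : ℕ) = 0) (D : Set (List Bool)) (S : Submodule F (ℕ →₀ F)) :
    ¬ IsNPSimple φ D S :=
  no_simple φ hφ S

/-- The negated form of Q1 as the problem file states it. -/
theorem negated_form (F : Type) [Field F] [Fintype F] (φ : F ≃ Fin (Fintype.card F))
    (hφ : (φ 0 : ℕ) = 0) :
    ¬ ∃ D : Set (List Bool), REPred (fun w => w ∈ D) ∧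
      ∃ S : Submodule F (ℕ →₀ F), IsNPSupermaximal φ D S ∧ IsNPSimple φ D S := by
  rintro ⟨D, -, S, -, hS⟩
  exact result F φ hφ D S hS

end Pool.Agent.Results.MP_65a8de_lc.NoSimple
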